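import Mathlib

/-!
# Uniquely `S`-weight colourable graphs for sets `S` of three weights

The triangle, and every disjoint union of triangles, has exactly one edge `{1, 2, 3}`-weighting up
to isomorphism that properly colours the vertices by sums; the same holds for every set of three
real weights.
-/

set_option autoImplicit false

namespace Pool.Agent.Results.MP_9e9a14_co.Triangles

open Finset

section Defs
variable {V : Type*} [Fintype V] [DecidableEq V] (G : SimpleGraph V)

/-- The sum at the vertex `v` of the weights `w e` of the edges `e` that contain `v`. -/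
noncomputable def vertexSum (w : G.edgeSet → ℝ) (v : V) : ℝ :=
  ∑ᶠ (e : G.edgeSet) (_ : v ∈ (e : Sym2 V)), w e

/-- `w` is an edge `S`-weighting of `G` which properly colours the vertices by sums. -/
def ProperWeighting (S : Set ℝ) (w : G.edgeSet → ℝ) : Prop :=
  (∀ e, w e ∈ S) ∧ ∀ u v, G.Adj u v → vertexSum G w u ≠ vertexSum G w v

/-- The edge weightings `w` and `w'` are isomorphic: some automorphism `φ` of `G` satisfies
`w' (φ e) = w e` for all edges `e`. -/
def Isomorphic (w w' : G.edgeSet → ℝ) : Prop :=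
  ∃ φ : G ≃g G, ∀ e : G.edgeSet, w' (φ.mapEdgeSet e) = w e

/-- `G` is uniquely `S`-weight colourable. -/
def UniquelyColourable (S : Set ℝ) : Prop :=
  (∃ w, ProperWeighting G S w) ∧
    ∀ w w', ProperWeighting G S w → ProperWeighting G S w' → Isomorphic G w w'

end Defs

/-- The disjoint union of triangles indexed by `I`. -/
def triangles (I : Type*) : SimpleGraph (I × Fin 3) where
  Adj a b := a.1 = b.1 ∧ a.2 ≠ b.2
  symm := ⟨fun _ _ h => ⟨h.1.symm, h.2.symm⟩⟩
  loopless := ⟨fun _ h => h.2 rfl⟩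

section
variable {I : Type*}

/-- the edge of the triangle `i` which is opposite to the vertex `j` -/
def opp (i : I) (j : Fin 3) : (triangles I).edgeSet :=
  ⟨s((i, j + 1), (i, j + 2)), ⟨rfl, by
    change j + 1 ≠ j + 2
    revert j; decide⟩⟩

lemma mem_opp (i k : I) (j l : Fin 3) :
    (k, l) ∈ ((opp i j : (triangles I).edgeSet) : Sym2 (I × Fin 3)) ↔ k = i ∧ l ≠ j := by
  change (k, l) ∈ s((i, j + 1), (i, j + 2)) ↔ _
  rw [Sym2.mem_iff, Prod.mk.injEq, Prod.mk.injEq, ← and_or_left]
  apply and_congr_right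
  intro _
  revert j l
  decide

lemma opp_surj (e : (triangles I).edgeSet) : ∃ (i : I) (j : Fin 3), e = opp i j := by
  obtain ⟨e, he⟩ := e
  induction e using Sym2.ind with
  | _ a b =>
    obtain ⟨i, a⟩ := a
    obtain ⟨k, b⟩ := b
    have h : i = k ∧ a ≠ b := he
    obtain ⟨rfl, hab⟩ := h
    have key : ∀ a b : Fin 3, a ≠ b → ∃ j : Fin 3, (a = j + 1 ∧ b = j + 2) ∨ (a = j + 2 ∧ b = j + 1) := by
      decide
    obtain ⟨j, ⟨rfl, rfl⟩ | ⟨rfl, rfl⟩⟩ := key a b hab
    · exact ⟨i, j, rfl⟩
    · exact ⟨i, j, Subtype.ext (Sym2.eq_swap)⟩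

lemma opp_inj {i k : I} {j l : Fin 3} (h : opp i j = opp k l) : i = k ∧ j = l := by
  have h1 : ∀ x : I × Fin 3, x ∈ ((opp i j : (triangles I).edgeSet) : Sym2 (I × Fin 3)) ↔
      x ∈ ((opp k l : (triangles I).edgeSet) : Sym2 (I × Fin 3)) := fun x => by rw [h]
  have hj : ∀ j : Fin 3, j + 1 ≠ j := by decide
  have h2 := (h1 (i, j + 1)).1 ((mem_opp i i j (j + 1)).2 ⟨rfl, hj j⟩)
  rw [mem_opp] at h2
  refine ⟨h2.1, ?_⟩
  have h3 := h1 (i, j)
  rw [mem_opp, mem_opp] at h3
  by_contra hjl
  exact (h3.2 ⟨h2.1, hjl⟩).2 rfl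

/-- the edges as pairs -/
noncomputable def edgeEquiv : I × Fin 3 ≃ (triangles I).edgeSet :=
  Equiv.ofBijective (fun p => opp p.1 p.2) ⟨by
    rintro ⟨i, j⟩ ⟨k, l⟩ h
    obtain ⟨rfl, rfl⟩ := opp_inj h
    rfl, by
    intro e
    obtain ⟨i, j, rfl⟩ := opp_surj e
    exact ⟨(i, j), rfl⟩⟩

variable [Fintype I]

lemma vertexSum_eq (w : (triangles I).edgeSet → ℝ) (i : I) (j : Fin 3) :
    vertexSum (triangles I) w (i, j) = (∑ l, w (opp i l)) - w (opp i j) := by
  classical
  unfold vertexSum
  have h1 : ∑ᶠ (e : (triangles I).edgeSet) (_ : (i, j) ∈ (e : Sym2 (I × Fin 3))), w e =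
      ∑ᶠ (p : I × Fin 3) (_ : (i, j) ∈ ((edgeEquiv p : (triangles I).edgeSet) : Sym2 (I × Fin 3))),
        w (edgeEquiv p) :=
    (finsum_comp_equiv (edgeEquiv (I := I))
      (f := fun e : (triangles I).edgeSet => ∑ᶠ (_ : (i, j) ∈ (e : Sym2 (I × Fin 3))), w e)).symm
  rw [h1, finsum_eq_sum_of_fintype]
  have h2 : ∀ p : I × Fin 3, (∑ᶠ (_ : (i, j) ∈ ((edgeEquiv p : (triangles I).edgeSet) :
      Sym2 (I × Fin 3))), w (edgeEquiv p)) = if i = p.1 ∧ j ≠ p.2 then w (opp p.1 p.2) else 0 := by
    intro p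
    rw [finsum_eq_if]
    have : ((i, j) ∈ ((edgeEquiv p : (triangles I).edgeSet) : Sym2 (I × Fin 3))) ↔
        (i = p.1 ∧ j ≠ p.2) := mem_opp p.1 i p.2 j
    simp only [this]
    rfl
  rw [Finset.sum_congr rfl (fun p _ => h2 p), Fintype.sum_prod_type]
  rw [Finset.sum_eq_single i]
  · have h3 : ∀ l : Fin 3, (if i = i ∧ j ≠ l then w (opp i l) else 0) =
        w (opp i l) - if j = l then w (opp i l) else 0 := by
      intro l
      by_cases h : j = l <;> simp [h]
    rw [Finset.sum_congr rfl (fun l _ => h3 l), Finset.sum_sub_distrib, Finset.sum_ite_eq]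
    simp
  · intro k _ hk
    apply Finset.sum_eq_zero
    intro l _
    rw [if_neg]
    rintro ⟨h, _⟩
    exact hk h.symm
  · simp

lemma proper_iff (S : Set ℝ) (w : (triangles I).edgeSet → ℝ) :
    ProperWeighting (triangles I) S w ↔
      (∀ i j, w (opp i j) ∈ S) ∧ ∀ i, Function.Injective fun j => w (opp i j) := by
  unfold ProperWeighting
  constructor
  · rintro ⟨h1, h2⟩
    refine ⟨fun i j => h1 _, fun i j l h => ?_⟩
    by_contra hjl
    apply h2 (i, j) (i, l) ⟨rfl, hjl⟩
    rw [vertexSum_eq, vertexSum_eq]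
    simp only at h
    rw [h]
  · rintro ⟨h1, h2⟩
    refine ⟨fun e => ?_, ?_⟩
    · obtain ⟨i, j, rfl⟩ := opp_surj e
      exact h1 i j
    · rintro ⟨i, j⟩ ⟨k, l⟩ ⟨h, hjl⟩ he
      obtain rfl : i = k := h
      rw [vertexSum_eq, vertexSum_eq] at he
      apply hjl
      apply h2 i
      simp only
      linarith

end

/-- Let `S` be a set of three real numbers and let `I` be a finite nonempty set. The disjoint union
of triangles indexed by `I` has an edge and is uniquely `S`-weight colourable. -/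
theorem result (S : Set ℝ) (hS : S.ncard = 3) (I : Type) [Fintype I] [Nonempty I] :
    (∃ u v, (triangles I).Adj u v) ∧ UniquelyColourable (triangles I) S := by
  classical
  have hfin : S.Finite := Set.finite_of_ncard_ne_zero (by omega)
  have hcard : Nat.card S = 3 := hS
  have : Finite S := hfin
  -- an enumeration of `S`
  have eS : Fin 3 ≃ S := (Finite.equivFinOfCardEq hcard).symm
  refine ⟨⟨(Classical.arbitrary I, 0), (Classical.arbitrary I, 1), rfl, by
    change (0 : Fin 3) ≠ 1
    decide⟩, ?_, ?_⟩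
  · refine ⟨fun e => eS (edgeEquiv.symm e).2, ?_⟩
    rw [proper_iff]
    have h : ∀ (i : I) (j : Fin 3), (edgeEquiv.symm (opp i j)).2 = j := by
      intro i j
      have : opp i j = edgeEquiv (i, j) := rfl
      rw [this, Equiv.symm_apply_apply]
    refine ⟨fun i j => (eS _).2, fun i j l hjl => ?_⟩
    simp only [h] at hjl
    exact eS.injective (Subtype.ext hjl)
  · intro w w' hw hw'
    rw [proper_iff] at hw hw'
    -- the bijections from the vertices of the triangles to `S`
    have hbij : ∀ (w : (triangles I).edgeSet → ℝ), (∀ i j, w (opp i j) ∈ S) →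
        (∀ i, Function.Injective fun j => w (opp i j)) →
        ∃ E : I → (Fin 3 ≃ S), ∀ i j, ((E i j : S) : ℝ) = w (opp i j) := by
      intro w h1 h2
      have h3 : ∀ i, Function.Bijective (fun j : Fin 3 => (⟨w (opp i j), h1 i j⟩ : S)) := by
        intro i
        have hinj : Function.Injective (fun j : Fin 3 => (⟨w (opp i j), h1 i j⟩ : S)) :=
          fun j l h => h2 i (Subtype.ext_iff.1 h)
        have hF : Fintype S := Fintype.ofFinite S
        rw [Fintype.bijective_iff_injective_and_card]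
        refine ⟨hinj, ?_⟩
        rw [Fintype.card_fin, ← Nat.card_eq_fintype_card, hcard]
      exact ⟨fun i => Equiv.ofBijective _ (h3 i), fun i j => rfl⟩
    obtain ⟨E, hE⟩ := hbij w hw.1 hw.2
    obtain ⟨E', hE'⟩ := hbij w' hw'.1 hw'.2
    let τ : I → Fin 3 ≃ Fin 3 := fun i => (E i).trans (E' i).symm
    let φ : triangles I ≃g triangles I :=
      { toFun := fun a => (a.1, τ a.1 a.2)
        invFun := fun a => (a.1, (τ a.1).symm a.2)
        left_inv := fun a => by simp
        right_inv := fun a => by simp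
        map_rel_iff' := by
          rintro ⟨i, j⟩ ⟨k, l⟩
          change (i = k ∧ τ i j ≠ τ k l) ↔ (i = k ∧ j ≠ l)
          constructor
          · rintro ⟨rfl, h⟩
            exact ⟨rfl, fun h' => h (by rw [h'])⟩
          · rintro ⟨rfl, h⟩
            exact ⟨rfl, fun h' => h ((τ i).injective h')⟩ }
    refine ⟨φ, fun e => ?_⟩
    obtain ⟨i, j, rfl⟩ := opp_surj e
    -- the image of the edge opposite to `j` is the edge opposite to `τ i j`
    obtain ⟨k, l, hkl⟩ := opp_surj (φ.mapEdgeSet (opp i j))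
    have hmem : ∀ a : I × Fin 3, φ a ∈ ((φ.mapEdgeSet (opp i j) : (triangles I).edgeSet) :
        Sym2 (I × Fin 3)) ↔ a ∈ ((opp i j : (triangles I).edgeSet) : Sym2 (I × Fin 3)) := by
      intro a
      change φ a ∈ Sym2.map φ ((opp i j : (triangles I).edgeSet) : Sym2 (I × Fin 3)) ↔ _
      rw [Sym2.mem_map]
      constructor
      · rintro ⟨b, hb, hab⟩
        rwa [← φ.injective hab]
      · intro ha
        exact ⟨a, ha, rfl⟩
    rw [hkl] at hmem
    have hj : ∀ j : Fin 3, j + 1 ≠ j := by decide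
    have h1 := (hmem (i, j + 1)).2 ((mem_opp i i j (j + 1)).2 ⟨rfl, hj j⟩)
    have h2 : φ (i, j + 1) = (i, τ i (j + 1)) := rfl
    rw [h2, mem_opp] at h1
    obtain ⟨rfl, _⟩ := h1
    have h3 := hmem (i, j)
    have h4 : φ (i, j) = (i, τ i j) := rfl
    rw [h4, mem_opp, mem_opp] at h3
    have h5 : τ i j = l := by
      by_contra h
      exact (h3.1 ⟨rfl, h⟩).2 rfl
    rw [hkl, ← h5, ← hE', ← hE]
    change ((E' i ((E' i).symm (E i j)) : S) : ℝ) = _
    rw [Equiv.apply_symm_apply]

end Pool.Agent.Results.MP_9e9a14_co.Triangles
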